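import Pool.Agent.Helper3.WA.St.Stubs

/-! Project WA (MP_12a1af_nt, captain helper3), piece WA-26: analysis of the loss. -/

set_option autoImplicit false

namespace Pool.Agent.Helper71.WA

open Finset Filter
open Pool.Agent.Helper48.ET
open Pool.Agent.Helper3.WT (rp GG P0)
open Pool.Agent.Helper3.WA

lemma growth {d c : ℝ} (hd : 0 < d) (hc : 0 ≤ c) : ∀ᶠ m : ℕ in atTop,
    c + 2 * ((m : ℝ) + 1) ^ 2 + m ≤ (2 : ℝ) ^ (d * m) := by
  have hr : 1 < (2 : ℝ) ^ d := Real.one_lt_rpow (by norm_num) hd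
  have h := (tendsto_pow_const_div_const_pow_of_one_lt 2 hr).eventually
    (gt_mem_nhds (show (0 : ℝ) < 1 / (c + 9) by positivity))
  filter_upwards [h, eventually_ge_atTop 1] with m hm h1
  rw [Real.rpow_mul (by norm_num), Real.rpow_natCast]
  have h2 : (0 : ℝ) < ((2 : ℝ) ^ d) ^ m := by positivity
  rw [div_lt_div_iff₀ h2 (by positivity)] at hm
  have h3 : (1 : ℝ) ≤ m := by exact_mod_cast h1
  nlinarith [mul_nonneg hc (show (0 : ℝ) ≤ (m : ℝ) ^ 2 - 1 by nlinarith)]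

section

variable {α : ℝ} {σ : SysA} {j : ℕ → ℕ}

lemma a_pow_pos (hs : SizedA α σ j) (k m : ℕ) : 0 < (2 * σ.p k) ^ m := by
  have : 0 < σ.p k := lt_of_le_of_lt (Nat.zero_le _) (hs.p_gt k)
  positivity

lemma a_W_succ (k : ℕ) : σ.W (k + 1) = σ.W k * (2 * σ.p k) ^ (2 * σ.M k) := by
  rw [SysA.W, Finset.prod_range_succ]; rfl

lemma a_W_pos (hs : SizedA α σ j) (k : ℕ) : 0 < σ.W k :=
  Finset.prod_pos fun _ _ => a_pow_pos hs _ _

lemma a_W_mono (hs : SizedA α σ j) : Monotone σ.W := by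
  refine monotone_nat_of_le_succ fun k => ?_
  rw [a_W_succ]
  exact Nat.le_mul_of_pos_right _ (a_pow_pos hs _ _)

lemma a_j_mono (hs : SizedA α σ j) : StrictMono j := strictMono_nat_of_lt_succ hs.mono

lemma a_ceil_le (h0 : 0 < α) (k : ℕ) : ⌈(1 - α) * j k⌉₊ ≤ j k := by
  rw [Nat.ceil_le]
  have : (0 : ℝ) ≤ j k := Nat.cast_nonneg _
  nlinarith

/-- `log x ≥ 2 ^ j K` if `x ≥ W K`, `K ≥ 1` -/
lemma a_log_ge (h0 : 0 < α) (hs : SizedA α σ j) {K x : ℕ} (hK : 1 ≤ K) (hx : σ.W K ≤ x) :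
    (2 : ℝ) ^ (j K) ≤ Real.log x := by
  obtain ⟨k, rfl⟩ : ∃ k, K = k + 1 := ⟨K - 1, by omega⟩
  have h1 : (2 * σ.p k) ^ (2 * σ.M k) ≤ x := by
    refine le_trans ?_ hx
    rw [a_W_succ]
    exact Nat.le_mul_of_pos_left _ (a_W_pos hs k)
  have h2 : (((2 * σ.p k : ℕ) : ℝ)) ^ (2 * σ.M k) ≤ (x : ℝ) := by exact_mod_cast h1
  have hpp : (0 : ℝ) < ((2 * σ.p k : ℕ) : ℝ) := by
    have := a_pow_pos hs k 1
    rw [pow_one] at this
    exact_mod_cast this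
  have h3 := Real.log_le_log (by positivity) h2
  rw [Real.log_pow] at h3
  have h4 : (2 : ℝ) ^ ⌈(1 - α) * j k⌉₊ * Real.log 2 ≤ Real.log ((2 * σ.p k : ℕ) : ℝ) := by
    have g1 : (2 : ℝ) ^ (2 ^ ⌈(1 - α) * j k⌉₊) ≤ ((2 * σ.p k : ℕ) : ℝ) := by
      have := (hs.p_gt k).le
      have g2 : 2 ^ 2 ^ ⌈(1 - α) * j k⌉₊ ≤ 2 * σ.p k := by omega
      exact_mod_cast g2
    have g2 := Real.log_le_log (by positivity) g1
    rw [Real.log_pow] at g2
    push_cast at g2 ⊢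
    exact g2
  have h5 : (1 : ℝ) ≤ 2 * Real.log 2 := by
    have := Real.log_two_gt_d9
    linarith
  have h6 : (2 : ℝ) ^ (j (k + 1)) = (σ.M k : ℝ) * (2 : ℝ) ^ ⌈(1 - α) * j k⌉₊ := by
    rw [hs.M_eq k]
    push_cast
    rw [← pow_add]
    congr 1
    have := a_ceil_le (j := j) h0 k
    have := hs.mono k
    omega
  rw [h6]
  calc (σ.M k : ℝ) * (2 : ℝ) ^ ⌈(1 - α) * j k⌉₊
      ≤ (σ.M k : ℝ) * (2 : ℝ) ^ ⌈(1 - α) * j k⌉₊ * (2 * Real.log 2) :=
        le_mul_of_one_le_right (by positivity) h5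
    _ = ((2 * σ.M k : ℕ) : ℝ) * ((2 : ℝ) ^ ⌈(1 - α) * j k⌉₊ * Real.log 2) := by
        push_cast; ring
    _ ≤ ((2 * σ.M k : ℕ) : ℝ) * Real.log ((2 * σ.p k : ℕ) : ℝ) :=
        mul_le_mul_of_nonneg_left h4 (by positivity)
    _ ≤ Real.log x := h3

lemma a_M_le (h0 : 0 < α) (hs : SizedA α σ j) {d : ℝ} (hd : 0 < d) {i K : ℕ} (hiK : i ≤ K)
    (h : (j (i + 1) : ℝ) ≤ (1 + d) * j i) : (σ.M i : ℝ) ≤ (2 : ℝ) ^ ((α + d) * j K) := by
  rw [hs.M_eq i]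
  push_cast
  rw [← Real.rpow_natCast]
  refine Real.rpow_le_rpow_of_exponent_le (by norm_num) ?_
  have h1 := a_ceil_le (j := j) h0 i
  have h2 := hs.mono i
  rw [Nat.cast_sub (by omega)]
  have h3 := Nat.le_ceil ((1 - α) * j i)
  have h4 : (j i : ℝ) ≤ j K := by exact_mod_cast (a_j_mono hs).monotone hiK
  nlinarith [mul_le_mul_of_nonneg_left h4 (by linarith : (0 : ℝ) ≤ α + d)]

lemma a_l_le (h0 : 0 < α) (hs : SizedA α σ j) (k : ℕ) :
    (σ.l k : ℝ) ≤ (2 : ℝ) ^ (α * j k) := by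
  rw [hs.l_eq k]
  push_cast
  rw [← Real.rpow_natCast]
  refine Real.rpow_le_rpow_of_exponent_le (by norm_num) ?_
  have h1 : ((⌊α * j k⌋₊ - 1 : ℕ) : ℝ) ≤ (⌊α * j k⌋₊ : ℝ) := by
    exact_mod_cast Nat.sub_le _ _
  exact h1.trans (Nat.floor_le (by positivity))

lemma a_prod_le (hs : SizedA α σ j) (K : ℕ) :
    (∏ i ∈ range (K + 1), 4 * (σ.M i : ℝ)) ≤ (2 : ℝ) ^ ((2 + j (K + 1)) * (K + 1)) := by
  have h : ∀ i ∈ range (K + 1), 4 * (σ.M i : ℝ) ≤ (2 : ℝ) ^ (2 + j (K + 1)) := by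
    intro i hi
    have hi' : i + 1 ≤ K + 1 := by
      have := Finset.mem_range.1 hi
      omega
    rw [hs.M_eq i]
    push_cast
    have e4 : (4 : ℝ) = (2 : ℝ) ^ 2 := by norm_num
    rw [e4, ← pow_add]
    refine pow_le_pow_right₀ (by norm_num) ?_
    have := (a_j_mono hs).monotone hi'
    omega
  calc (∏ i ∈ range (K + 1), 4 * (σ.M i : ℝ)) ≤ ∏ i ∈ range (K + 1), (2 : ℝ) ^ (2 + j (K + 1)) :=
        Finset.prod_le_prod (fun i _ => by positivity) h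
    _ = (2 : ℝ) ^ ((2 + j (K + 1)) * (K + 1)) := by
        rw [Finset.prod_const, Finset.card_range, ← pow_mul]

/-- WA-26: analysis of the loss -/
theorem loss {α : ℝ} (h0 : 0 < α) (h1 : α ≤ 1 / 2) {σ : SysA} {j : ℕ → ℕ} (hs : SizedA α σ j)
    (hr : ∀ e : ℝ, 0 < e → ∀ᶠ k in atTop, (j (k + 1) : ℝ) ≤ (1 + e) * j k) :
    ∀ e : ℝ, 0 < e → ∀ᶠ x : ℕ in atTop, ∀ K N, 1 ≤ K → N < σ.M K →
      σ.W K ≤ x → x < σ.W (K + 2) →
      (2 : ℝ) ^ (∑ i ∈ range K, σ.M i + N + 2 * σ.l K + σ.l (K + 1) + 7) *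
        (∏ i ∈ range (K + 1), 4 * (σ.M i : ℝ)) ≤ Real.exp (Real.log x ^ (α + e)) := by
  intro e he
  obtain ⟨d, hd, hd1, hde⟩ : ∃ d : ℝ, 0 < d ∧ d ≤ 1 ∧ 2 * d ≤ e := by
    refine ⟨min (e / 2) 1, lt_min (by linarith) one_pos, min_le_right _ _, ?_⟩
    have := min_le_left (e / 2) 1
    linarith
  obtain ⟨k0, hk0⟩ := eventually_atTop.1 (hr d hd)
  obtain ⟨m0, hm0⟩ := eventually_atTop.1
    (growth hd (show (0 : ℝ) ≤ (∑ i ∈ range k0, (σ.M i : ℝ)) + 11 by positivity))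
  filter_upwards [eventually_ge_atTop (σ.W (k0 + m0 + 2))] with x hxW
  intro K N hK hNM hx hxK
  have hkK : k0 + m0 ≤ K := by
    by_contra hcon
    have : σ.W (K + 2) ≤ σ.W (k0 + m0 + 2) := a_W_mono hs (by omega)
    omega
  have hX : (2 : ℝ) ^ (j K) ≤ Real.log x := a_log_ge h0 hs hK hx
  have hjK : K ≤ j K := (a_j_mono hs).id_le K
  have hjKr : (K : ℝ) ≤ j K := by exact_mod_cast hjK
  have hgrow := hm0 (j K) (by omega)
  have hj1 : (j (K + 1) : ℝ) ≤ (1 + d) * j K := hk0 K (by omega)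
  have hj0 : (0 : ℝ) ≤ j K := Nat.cast_nonneg _
  set B : ℝ := (2 : ℝ) ^ ((α + d) * j K) with hB
  have hB1 : 1 ≤ B := Real.one_le_rpow (by norm_num) (by positivity)
  have g1 : (∑ i ∈ range K, (σ.M i : ℝ)) ≤ (∑ i ∈ range k0, (σ.M i : ℝ)) + K * B := by
    rw [← Finset.sum_range_add_sum_Ico (fun i => (σ.M i : ℝ)) (show k0 ≤ K by omega)]
    refine add_le_add_right ?_ _
    calc ∑ i ∈ Finset.Ico k0 K, (σ.M i : ℝ) ≤ ∑ i ∈ Finset.Ico k0 K, B := by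
          refine Finset.sum_le_sum fun i hi => ?_
          obtain ⟨hi1, hi2⟩ := Finset.mem_Ico.1 hi
          exact a_M_le h0 hs hd hi2.le (hk0 i hi1)
      _ = ((K - k0 : ℕ) : ℝ) * B := by rw [Finset.sum_const, Nat.card_Ico, nsmul_eq_mul]
      _ ≤ K * B := by
          refine mul_le_mul_of_nonneg_right ?_ (by positivity)
          exact_mod_cast Nat.sub_le _ _
  have g2 : (N : ℝ) ≤ B := by
    have : (N : ℝ) ≤ σ.M K := by exact_mod_cast hNM.le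
    exact this.trans (a_M_le h0 hs hd le_rfl hj1)
  have g3 : (σ.l K : ℝ) ≤ B := by
    refine (a_l_le h0 hs K).trans ?_
    refine Real.rpow_le_rpow_of_exponent_le (by norm_num) ?_
    nlinarith
  have g4 : (σ.l (K + 1) : ℝ) ≤ B := by
    refine (a_l_le h0 hs (K + 1)).trans ?_
    refine Real.rpow_le_rpow_of_exponent_le (by norm_num) ?_
    calc α * j (K + 1) ≤ α * ((1 + d) * j K) := mul_le_mul_of_nonneg_left hj1 h0.le
      _ ≤ (α + d) * j K := by nlinarith [mul_nonneg hd.le hj0]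
  have g5 : (2 + (j (K + 1) : ℝ)) * (K + 1) ≤ 2 * ((j K : ℝ) + 1) ^ 2 := by
    have k1 : (2 + (j (K + 1) : ℝ)) ≤ 2 * (j K + 1) := by nlinarith
    calc (2 + (j (K + 1) : ℝ)) * (K + 1) ≤ (2 * (j K + 1)) * (j K + 1) :=
          mul_le_mul k1 (by linarith) (by positivity) (by positivity)
      _ = 2 * ((j K : ℝ) + 1) ^ 2 := by ring
  set T : ℕ := ∑ i ∈ range K, σ.M i + N + 2 * σ.l K + σ.l (K + 1) + 7 +
    (2 + j (K + 1)) * (K + 1) with hT
  have hTr : (T : ℝ) ≤ Real.log x ^ (α + e) := by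
    have t1 : (T : ℝ) ≤ ((∑ i ∈ range k0, (σ.M i : ℝ)) + 11 + 2 * ((j K : ℝ) + 1) ^ 2 + j K) * B := by
      rw [hT]
      push_cast
      have hD : (0 : ℝ) ≤ ∑ i ∈ range k0, (σ.M i : ℝ) := by positivity
      have hq : (0 : ℝ) ≤ 2 * ((j K : ℝ) + 1) ^ 2 := by positivity
      have k1 : (K : ℝ) * B ≤ j K * B := mul_le_mul_of_nonneg_right hjKr (by positivity)
      nlinarith [mul_le_mul_of_nonneg_left hB1 hD, mul_le_mul_of_nonneg_left hB1 hq]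
    refine t1.trans ((mul_le_mul_of_nonneg_right hgrow (by positivity)).trans ?_)
    have hlog1 : (1 : ℝ) ≤ Real.log x := le_trans (one_le_pow₀ (by norm_num)) hX
    calc (2 : ℝ) ^ (d * j K) * B = ((2 : ℝ) ^ (j K)) ^ (α + 2 * d) := by
          rw [hB, ← Real.rpow_add (by norm_num), ← Real.rpow_natCast, ← Real.rpow_mul (by norm_num)]
          congr 1
          ring
      _ ≤ Real.log x ^ (α + 2 * d) := Real.rpow_le_rpow (by positivity) hX (by positivity)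
      _ ≤ Real.log x ^ (α + e) := Real.rpow_le_rpow_of_exponent_le hlog1 (by linarith)
  calc (2 : ℝ) ^ (∑ i ∈ range K, σ.M i + N + 2 * σ.l K + σ.l (K + 1) + 7) *
        (∏ i ∈ range (K + 1), 4 * (σ.M i : ℝ))
      ≤ (2 : ℝ) ^ (∑ i ∈ range K, σ.M i + N + 2 * σ.l K + σ.l (K + 1) + 7) *
        (2 : ℝ) ^ ((2 + j (K + 1)) * (K + 1)) :=
        mul_le_mul_of_nonneg_left (a_prod_le hs K) (by positivity)
    _ = (2 : ℝ) ^ T := by rw [← pow_add]
    _ = Real.exp ((T : ℝ) * Real.log 2) := by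
        rw [mul_comm, ← Real.rpow_def_of_pos (by norm_num), Real.rpow_natCast]
    _ ≤ Real.exp (Real.log x ^ (α + e)) := by
        refine Real.exp_le_exp.2 ?_
        have k1 : Real.log 2 ≤ 1 := by
          have := Real.log_two_lt_d9
          linarith
        calc (T : ℝ) * Real.log 2 ≤ T * 1 := mul_le_mul_of_nonneg_left k1 (by positivity)
          _ = T := mul_one _
          _ ≤ _ := hTr

end

end Pool.Agent.Helper71.WA
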