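import Pool.Agent.Helper3.WA.St.Stubs

/-! Project WA (MP_12a1af_nt, captain helper3), piece WA-7: the two kinds of pairs. -/

set_option autoImplicit false

namespace Pool.Agent.Helper71.WA

open Finset Filter
open Pool.Agent.Helper48.ET
open Pool.Agent.Helper3.WT (rp GG P0)
open Pool.Agent.Helper3.WA
open Pool.Agent.Helper3.WA.St

variable {p : ℕ} [Fact p.Prime]

/-- WA-7 (from WA-2, 3, 4, 6) -/
theorem pair_near {C n M : ℕ} (hC : 8 ≤ C) (hev : Even C) (hnM : n + 1 ≤ M) (θ' : Par p) :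
    ∃ Q : MvPolynomial (Option (ℕ × ℕ × ℕ)) (Om p), Q ≠ 0 ∧ Q.totalDegree ≤ 2 * Del C + 1 ∧
      ∀ θ : Par p, MvPolynomial.eval θ.val Q ≠ 0 → ∀ t w : ℕ → ZMod p,
        (trunc (n + 1) '' SolG (PW C n θ') (LW C (n + 1) θ) t w).ncard ≤ GG C M := by
  refine pair_assemble (n' := n) (n := n + 1) hC hev (Nat.lt_succ_self n) hnM θ'
    (fun θ t w => SolG (PW C n θ') (LW C (n + 1) θ) t w)
    (fun θ t w => solG_finite (LW C (n + 1) θ) t w) ?_ ?_ ?_
  · intro θ hlam t w i h1 h2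
    exact shared_gen hC _ _ (fun x z h => h.rel i) (fun x z h => h.rel i) h1 h2 hlam t w
  · intro j h1 h2
    exact merge_gen hC _ (fun θ => LW C (n + 1) θ) θ'
      (fun θ t w => solG_finite (LW C (n + 1) θ) t w) (fun x z h => h.rel)
      (fun θ x z h => h.rel) h1 h2
  · intro e s he _ he2 hs h1
    have h8 : e = 1 := by
      rcases Nat.lt_or_ge e 2 with h | h
      · omega
      · have h3 : 8 ≤ C ^ (e - 1) :=
          hC.trans (by
            calc C = C ^ 1 := (pow_one C).symm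
              _ ≤ C ^ (e - 1) := Nat.pow_le_pow_right (by omega) (by omega))
        omega
    exact near_final hC θ' (by omega) h1

/-- WA-7 (from WA-2, 3, 5, 6) -/
theorem pair_far {C n' n M : ℕ} (hC : 8 ≤ C) (hev : Even C) (hn : n' + 2 ≤ n) (hnM : n ≤ M)
    (θ' : Par p) :
    ∃ Q : MvPolynomial (Option (ℕ × ℕ × ℕ)) (Om p), Q ≠ 0 ∧ Q.totalDegree ≤ 2 * Del C + 1 ∧
      ∀ θ : Par p, MvPolynomial.eval θ.val Q ≠ 0 → ∀ t w : ℕ → ZMod p,
        (SolG (PW C n' θ') (LW C n θ) t w).ncard ≤ GG C M := by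
  obtain ⟨Q, hQ0, hQ1, hQ⟩ := pair_assemble (n' := n') (n := n) (q' := n' + 2) hC hev
    (by omega) hnM θ' (fun θ t w => SolG (PW C n' θ') (LW C n θ) t w)
    (fun θ t w => solG_finite (LW C n θ) t w)
    (fun θ hlam t w i h1 h2 =>
      shared_gen hC _ _ (fun x z h => h.rel i) (fun x z h => h.rel i) h1 h2 hlam t w)
    (fun j h1 h2 => merge_gen hC _ (fun θ => LW C n θ) θ'
      (fun θ t w => solG_finite (LW C n θ) t w) (fun x z h => h.rel)
      (fun θ x z h => h.rel) h1 h2)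
    (fun e s he he1 he2 hs h1 => far_final hC θ' hn he he1 he2 hs h1)
  refine ⟨Q, hQ0, hQ1, fun θ hθ t w => ?_⟩
  have h1 := hQ θ hθ t w
  have h2 : trunc (n' + 2) '' SolG (PW C n' θ') (LW C n θ) t w
      = SolG (PW C n' θ') (LW C n θ) t w := by
    have h3 : ∀ x ∈ SolG (PW C n' θ') (LW C n θ) t w, trunc (n' + 2) x = x := by
      rintro x ⟨z, hP, -⟩
      funext u
      unfold trunc
      split_ifs with hu
      · rfl
      · exact (hP.xs u (by omega)).symm
    ext x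
    constructor
    · rintro ⟨y, hy, rfl⟩
      rw [h3 y hy]
      exact hy
    · intro hx
      exact ⟨x, hx, h3 x hx⟩
  rwa [h2] at h1

end Pool.Agent.Helper71.WA
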